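import Pool.Agent.H77.EA.Targets3

/-!
# Equivariant Alperin–McKay (MP_657073_al): the quadratic form trick, counting part (module XV)
-/

open scoped Classical ComplexConjugate

namespace Pool.Agent.H65.EA

open AMc AMe

theorem xv_count {T A B : Type} [Fintype A] [Fintype B] (c : A → T) (d : B → T) (S : Finset T)
    (hS : ∀ a, c a ∈ S) :
    {p : A × B | c p.1 = d p.2}.ncard =
      ∑ t ∈ S, (Finset.univ.filter (fun a => c a = t)).card *
        (Finset.univ.filter (fun b => d b = t)).card := by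
  have h1 : {p : A × B | c p.1 = d p.2} =
      ((Finset.univ.filter (fun p : A × B => c p.1 = d p.2) : Finset (A × B)) : Set (A × B)) := by
    ext p
    simp
  rw [h1, Set.ncard_coe_finset]
  rw [Finset.card_eq_sum_card_fiberwise (f := fun p : A × B => c p.1) (t := S)
    (fun p _ => hS p.1)]
  refine Finset.sum_congr rfl fun t _ => ?_
  rw [← Finset.card_product]
  congr 1
  ext p
  simp only [Finset.mem_filter, Finset.mem_univ, true_and, Finset.mem_product]
  constructor
  · rintro ⟨h, h'⟩
    exact ⟨h', h ▸ h'⟩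
  · rintro ⟨h, h'⟩
    exact ⟨h.trans h'.symm, h⟩

theorem xv_sum {T A : Type} [Fintype A] (c : A → T) (S : Finset T) (hS : ∀ a, c a ∈ S) :
    Nat.card A = ∑ t ∈ S, (Finset.univ.filter (fun a => c a = t)).card := by
  rw [Nat.card_eq_fintype_card, ← Finset.card_univ]
  exact Finset.card_eq_sum_card_fiberwise (fun a _ => hS a)

theorem xv : T_XV := by
  intro T A B _ _ c d h1 h2
  have := Fintype.ofFinite A
  have := Fintype.ofFinite B
  set S : Finset T := Finset.univ.image c ∪ Finset.univ.image d with hS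
  have hc : ∀ a, c a ∈ S := fun a =>
    Finset.mem_union_left _ (Finset.mem_image_of_mem c (Finset.mem_univ a))
  have hd : ∀ b, d b ∈ S := fun b =>
    Finset.mem_union_right _ (Finset.mem_image_of_mem d (Finset.mem_univ b))
  rw [xv_count c c S hc, xv_count c d S hc] at h1
  rw [xv_count c d S hc, xv_count d d S hd] at h2
  rw [xv_sum c S hc, xv_sum d S hd]
  set x : T → ℕ := fun t => (Finset.univ.filter (fun a => c a = t)).card with hx
  set y : T → ℕ := fun t => (Finset.univ.filter (fun b => d b = t)).card with hy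
  have h1' : ((∑ t ∈ S, x t * x t : ℕ) : ℤ) = ((∑ t ∈ S, x t * y t : ℕ) : ℤ) :=
    congrArg (fun n : ℕ => (n : ℤ)) h1
  have h2' : ((∑ t ∈ S, x t * y t : ℕ) : ℤ) = ((∑ t ∈ S, y t * y t : ℕ) : ℤ) :=
    congrArg (fun n : ℕ => (n : ℤ)) h2
  push_cast at h1' h2'
  have h3 : ∑ t ∈ S, ((x t : ℤ) - y t) ^ 2 = 0 := by
    have h4 : ∀ t, ((x t : ℤ) - y t) ^ 2 =
        (x t : ℤ) * x t - (x t : ℤ) * y t - ((x t : ℤ) * y t - (y t : ℤ) * y t) := by
      intro t
      ring
    rw [Finset.sum_congr rfl fun t _ => h4 t, Finset.sum_sub_distrib, Finset.sum_sub_distrib,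
      Finset.sum_sub_distrib, h1', h2']
    ring
  have h5 := (Finset.sum_eq_zero_iff_of_nonneg (fun t _ => sq_nonneg ((x t : ℤ) - y t))).1 h3
  refine Finset.sum_congr rfl fun t ht => ?_
  have h6 := h5 t ht
  rw [sq_eq_zero_iff, sub_eq_zero] at h6
  exact_mod_cast h6

end Pool.Agent.H65.EA
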