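import Pool.Agent.H3.AM.Targets2

/-!
# Alperin–McKay (MP_657073_al): transport of irreducible characters (module K1)
-/

open scoped Classical ComplexConjugate

namespace Pool.Agent.H65.EA

open AMc

/-- subrepresentations do not change under an isomorphism of the group -/
def subIso {G H : Type} [Group G] [Group H] (e : G ≃* H) {n : ℕ}
    (ρ : Representation ℂ G (Fin n → ℂ)) :
    Subrepresentation ρ ≃o Subrepresentation (ρ.comp e.symm.toMonoidHom) where
  toFun σ := ⟨σ.toSubmodule, fun h v hv => σ.apply_mem_toSubmodule (e.symm h) hv⟩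
  invFun σ := ⟨σ.toSubmodule, fun g v hv => by
    have h := σ.apply_mem_toSubmodule (e g) hv
    have h2 : (ρ.comp e.symm.toMonoidHom) (e g) = ρ g := by
      show ρ (e.symm (e g)) = ρ g
      rw [MulEquiv.symm_apply_apply]
    rwa [h2] at h⟩
  left_inv _ := rfl
  right_inv _ := rfl
  map_rel_iff' := Iff.rfl

theorem irr_equiv {G H : Type} [Group G] [Group H] (e : G ≃* H) {ψ : G → ℂ} (hψ : ψ ∈ Irr G) :
    (fun h => ψ (e.symm h)) ∈ Irr H := by
  obtain ⟨n, ρ, hρ, rfl⟩ := hψ
  exact ⟨n, ρ.comp e.symm.toMonoidHom, (OrderIso.isSimpleOrder_iff (subIso e ρ)).1 hρ, rfl⟩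

theorem extj_apply {N Γ : Type} [Group N] [Group Γ] {j : N →* Γ} (hj : Function.Injective j)
    (ψ : N → ℂ) (n : N) : extj j ψ (j n) = ψ n := by
  unfold extj
  have h : ∃ m, j m = j n := ⟨n, rfl⟩
  rw [dif_pos h, hj h.choose_spec]

theorem extj_of_not {N Γ : Type} [Group N] [Group Γ] (j : N →* Γ)
    (ψ : N → ℂ) {g : Γ} (h : ¬ ∃ n, j n = g) : extj j ψ g = 0 := by
  unfold extj
  rw [dif_neg h]

theorem extj_eq_ext0 {N Γ : Type} [Group N] [Group Γ] {j : N →* Γ} (hj : Function.Injective j)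
    (φ : j.range → ℂ) : extj j (fun n => φ (MonoidHom.ofInjective hj n)) = ext0 j.range φ := by
  funext g
  by_cases h : ∃ n, j n = g
  · obtain ⟨n, rfl⟩ := h
    rw [extj_apply hj]
    unfold ext0
    have h2 : j n ∈ j.range := ⟨n, rfl⟩
    rw [dif_pos h2]
    rfl
  · rw [extj_of_not j _ h]
    unfold ext0
    rw [dif_neg (fun h2 => h (MonoidHom.mem_range.1 h2))]

theorem ext0_range_apply {N Γ : Type} [Group N] [Group Γ] {j : N →* Γ}
    (hj : Function.Injective j) (φ : j.range → ℂ) (n : N) :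
    ext0 j.range φ (j n) = φ (MonoidHom.ofInjective hj n) := by
  rw [← extj_eq_ext0 hj, extj_apply hj]

theorem k1 : T_K1 := by
  intro N Γ _ _ _ _ j hj
  refine ⟨fun ψ n => extj_apply hj ψ n, fun ψ => ⟨fun hψ => ?_, fun hψ => ?_⟩,
    fun θ hθ => ?_, ?_⟩
  · refine ⟨_, irr_equiv (MonoidHom.ofInjective hj) hψ, ?_⟩
    rw [← extj_eq_ext0 hj]
    congr 1
    funext n
    rw [MulEquiv.symm_apply_apply]
  · obtain ⟨φ, hφ, h⟩ := hψ
    have h2 : ψ = fun n => φ (MonoidHom.ofInjective hj n) := by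
      funext n
      rw [← ext0_range_apply hj φ n, h, extj_apply hj]
    rw [h2]
    exact irr_equiv (MonoidHom.ofInjective hj).symm hφ
  · obtain ⟨φ, hφ, rfl⟩ := hθ
    exact ⟨fun n => φ (MonoidHom.ofInjective hj n),
      irr_equiv (MonoidHom.ofInjective hj).symm hφ, extj_eq_ext0 hj φ⟩
  · intro N' _ i hi ψ
    have hji : Function.Injective (j.comp i) := hj.comp hi
    funext g
    by_cases h : ∃ n, j n = g
    · obtain ⟨n, rfl⟩ := h
      rw [extj_apply hj]
      by_cases h' : ∃ m, i m = n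
      · obtain ⟨m, rfl⟩ := h'
        rw [extj_apply hi]
        exact (extj_apply hji ψ m).symm
      · rw [extj_of_not i _ h', extj_of_not (j.comp i)]
        rintro ⟨m, hm⟩
        exact h' ⟨m, hj hm⟩
    · rw [extj_of_not j _ h, extj_of_not (j.comp i)]
      rintro ⟨m, hm⟩
      exact h ⟨i m, hm⟩

end Pool.Agent.H65.EA
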