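import Pool.Agent.H77.EA.Targets3

/-!
# Equivariant Alperin–McKay (MP_657073_al): heights are nonnegative, in terms of a defect group
(module XO)
-/

open scoped Classical ComplexConjugate

namespace Pool.Agent.H65.EA

open AMc AMe

/-- the residue field of a maximal ideal as an abstract field -/
theorem exists_field' (ℓ : ℕ) [Fact ℓ.Prime] (𝔪 : Ideal (integralClosure ℤ ℂ))
    (h𝔪 : 𝔪.IsMaximal) (hℓ : (ℓ : integralClosure ℤ ℂ) ∈ 𝔪) :
    ∃ (F : Type) (_ : Field F) (π : integralClosure ℤ ℂ →+* F),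
      Function.Surjective π ∧ RingHom.ker π = 𝔪 ∧ CharP F ℓ := by
  refine ⟨integralClosure ℤ ℂ ⧸ 𝔪, Ideal.Quotient.field 𝔪, Ideal.Quotient.mk 𝔪,
    Ideal.Quotient.mk_surjective, Ideal.mk_ker, ?_⟩
  let _ := Ideal.Quotient.field 𝔪
  rw [CharP.charP_iff_prime_eq_zero Fact.out]
  have : Ideal.Quotient.mk 𝔪 (ℓ : integralClosure ℤ ℂ) = 0 := Ideal.Quotient.eq_zero_iff_mem.2 hℓ
  rw [map_natCast] at this
  exact this

theorem xo (hHT : T_HT) (hK1 : T_K1) (hK2 : T_K2) (hB9 : T_B9) (hKX : T_KX) : T_XO := by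
  intro ℓ _ 𝔪 h𝔪 hℓ G _ _ D χ hχ hD a ha hs d hd
  obtain ⟨F, _, π, hπ, rfl, _⟩ := exists_field' ℓ 𝔪 h𝔪 hℓ
  have hj : Function.Injective (MonoidHom.id G) := Function.injective_id
  obtain ⟨k1a, k1b, -, -⟩ := hK1 G G (MonoidHom.id G) hj
  have hx : ∀ ψ : G → ℂ, extj (MonoidHom.id G) ψ = ψ := fun ψ => funext fun n => k1a ψ n
  have hDm : D.map (MonoidHom.id G) = D := Subgroup.map_id D
  have hχS : χ ∈ IrrS (MonoidHom.id G).range := by
    have h := (k1b χ).1 hχ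
    rwa [hx χ] at h
  have haS : a ∈ IrrS (MonoidHom.id G).range := by
    have h := (k1b a).1 ha
    rwa [hx a] at h
  have hDef : DefH ℓ (MonoidHom.id G).range (lam π χ) D := by
    have h := (hK2 G G (MonoidHom.id G) hj (RingHom.ker π) ℓ χ D).1.1 hD
    rw [hx, hDm] at h
    exact ((hB9 F π hπ ℓ G (MonoidHom.id G).range χ hχS).2.1 D).1 h
  have hBlk : Blk π (MonoidHom.id G).range χ a := by
    have h := ((hKX F π hπ ℓ G G (MonoidHom.id G) hj χ hχ D).2.2.1 a ha).1 hs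
    rwa [hx, hx] at h
  have h := hHT F π hπ ℓ G (MonoidHom.id G).range D χ hχS hDef a haS hBlk d hd
  have hr : (MonoidHom.id G).range = ⊤ := MonoidHom.range_eq_top.2 Function.surjective_id
  rwa [hr, Subgroup.relIndex_top_right] at h

end Pool.Agent.H65.EA
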