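import Pool.Agent.H3.AM.Basic

/-!
# Alperin–McKay (MP_657073_al): dictionary for Brauer induction (module B8)
-/

open scoped Classical ComplexConjugate

namespace Pool.Agent.H65.EA

open AMc

theorem b8 (hS1 : T_S1) (_hS5 : T_S5) (hB1 : T_B1) (hB2 : T_B2) (hD3 : T_D3) : T_B8 := by
  intro F _ π hπ ℓ _ _ Γ _ _ N P hP hPN χ hχ ψ hψ
  set N' : Subgroup Γ := N ⊓ Subgroup.normalizer (P : Set Γ) with hN'
  have hPN' : P ≤ N' := le_inf hPN Subgroup.le_normalizer
  have hNn : N' ≤ Subgroup.normalizer (P : Set Γ) := inf_le_right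
  have hχB := hB1 F π hπ Γ N χ hχ
  have hψB := hB1 F π hπ Γ N' ψ hψ
  have hCN : Subgroup.centralizer (P : Set Γ) ≤ Subgroup.normalizer (P : Set Γ) :=
    Subgroup.centralizer_le_normalizer _
  have hC : ∀ g ∈ N, g ∈ Subgroup.centralizer (P : Set Γ) → g ∈ N' :=
    fun g hg hg' => ⟨hg, hCN hg'⟩
  have hcent : ∀ n ∈ N', ∀ g ∈ Subgroup.centralizer (P : Set Γ),
      n * g * n⁻¹ ∈ Subgroup.centralizer (P : Set Γ) := by
    intro n hn g hg
    have hn1 : n ∈ Subgroup.normalizer (P : Set Γ) := hNn hn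
    rw [Subgroup.mem_centralizer_iff] at hg ⊢
    intro p hp
    have hq : n⁻¹ * p * n ∈ P := by
      have h := (Subgroup.mem_normalizer_iff.1 ((Subgroup.normalizer (P : Set Γ)).inv_mem hn1)
        p).1 hp
      simpa using h
    have h1 := hg _ hq
    calc p * (n * g * n⁻¹) = n * ((n⁻¹ * p * n) * g) * n⁻¹ := by group
      _ = n * (g * (n⁻¹ * p * n)) * n⁻¹ := by rw [h1]
      _ = n * g * n⁻¹ * p := by group
  have hcent' : ∀ n ∈ N', ∀ g, n * g * n⁻¹ ∈ Subgroup.centralizer (P : Set Γ) ↔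
      g ∈ Subgroup.centralizer (P : Set Γ) := by
    intro n hn g
    refine ⟨fun h => ?_, hcent n hn g⟩
    have h2 := hcent n⁻¹ (N'.inv_mem hn) _ h
    have h3 : n⁻¹ * (n * g * n⁻¹) * n⁻¹⁻¹ = g := by group
    rwa [h3] at h2
  have hbr : ∀ z ∈ ZA F N N, br P z ∈ ZA F N' N' := by
    intro z hz
    refine ⟨fun g hg => ?_, fun u hu g => ?_⟩
    · rw [coeff_br]
      by_cases h : g ∈ Subgroup.centralizer (P : Set Γ)
      · rw [if_pos h]
        exact hz.1 g (fun h2 => hg (hC g h2 h))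
      · rw [if_neg h]
    · rw [coeff_br, coeff_br, hz.2 u hu.1 g]
      simp only [hcent' u hu g]
  have hψ0 := (hS1 Γ N' ψ hψ).1
  have key : ∀ x ∈ N, lam π ψ (csum F (cls N x)) = lam π ψ (br P (csum F (cls N x))) := by
    intro x hx
    have hinv : ∀ n ∈ N', ∀ g ∈ cls N x, n * g * n⁻¹ ∈ cls N x :=
      fun n hn g hg => (cls_conj hn.1).2 hg
    -- the two parts
    set A : Finset Γ := (cls N x).filter (fun g => g ∈ Subgroup.centralizer (P : Set Γ)) with hA
    set B : Finset Γ := (cls N x).filter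
      (fun g => g ∈ N' ∧ g ∉ Subgroup.centralizer (P : Set Γ)) with hB
    have hAmem : ∀ g ∈ A, g ∈ N' := fun g hg =>
      hC g (cls_subset_self hx g (Finset.mem_filter.1 hg).1) (Finset.mem_filter.1 hg).2
    have hBmem : ∀ g ∈ B, g ∈ N' := fun g hg => (Finset.mem_filter.1 hg).2.1
    have hAinv : ∀ n ∈ N', ∀ g ∈ A, n * g * n⁻¹ ∈ A := fun n hn g hg =>
      Finset.mem_filter.2 ⟨hinv n hn g (Finset.mem_filter.1 hg).1,
        hcent n hn g (Finset.mem_filter.1 hg).2⟩
    have hBinv : ∀ n ∈ N', ∀ g ∈ B, n * g * n⁻¹ ∈ B := fun n hn g hg =>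
      Finset.mem_filter.2 ⟨hinv n hn g (Finset.mem_filter.1 hg).1,
        N'.mul_mem (N'.mul_mem hn (hBmem g hg)) (N'.inv_mem hn),
        fun h => (Finset.mem_filter.1 hg).2.2 ((hcent' n hn g).1 h)⟩
    have hAB : Disjoint A B := by
      rw [Finset.disjoint_left]
      intro g h1 h2
      exact (Finset.mem_filter.1 h2).2.2 (Finset.mem_filter.1 h1).2
    have hABinv : ∀ n ∈ N', ∀ g ∈ A ∪ B, n * g * n⁻¹ ∈ A ∪ B := by
      intro n hn g hg
      rcases Finset.mem_union.1 hg with h | h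
      · exact Finset.mem_union_left _ (hAinv n hn g h)
      · exact Finset.mem_union_right _ (hBinv n hn g h)
    have h1 := hB2 F π hπ Γ N' ψ hψ (cls N x) hinv
    have h2 := hB2 F π hπ Γ N' ψ hψ (A ∪ B) hABinv
    have hom : om ψ (cls N x) = om ψ (A ∪ B) := by
      unfold om
      congr 1
      symm
      apply Finset.sum_subset
      · intro g hg
        rcases Finset.mem_union.1 hg with h | h
        · exact (Finset.mem_filter.1 h).1
        · exact (Finset.mem_filter.1 h).1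
      · intro g hg hg'
        apply hψ0
        intro hgN
        apply hg'
        by_cases h : g ∈ Subgroup.centralizer (P : Set Γ)
        · exact Finset.mem_union_left _ (Finset.mem_filter.2 ⟨hg, h⟩)
        · exact Finset.mem_union_right _ (Finset.mem_filter.2 ⟨hg, hgN, h⟩)
    have hAZ : csum F A ∈ ZA F N' N' := csum_mem hAmem hAinv
    have hBZ : csum F B ∈ ZA F N' N' := csum_mem hBmem hBinv
    have hB0 : lam π ψ (csum F B) = 0 := by
      refine hD3 F ℓ Γ N' P hP hPN' hNn (lam π ψ) hψB (csum F B) hBZ ?_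
      intro g hg
      rw [coeff_csum, if_neg]
      intro h
      exact (Finset.mem_filter.1 h).2.2 hg
    rw [h1.2, hom, ← h2.2, csum_union hAB, hψB.map_add _ hAZ _ hBZ, hB0, add_zero, br_csum]
  have key2 : ∀ x ∈ N, (Cong (RingHom.ker π) (om χ (cls N x)) (om ψ (cls N x)) ↔
      lam π χ (csum F (cls N x)) = lam π ψ (br P (csum F (cls N x)))) := by
    intro x hx
    have h1 := hB2 F π hπ Γ N χ hχ (cls N x) (fun n hn g hg => (cls_conj hn).2 hg)
    have h2 := hB2 F π hπ Γ N' ψ hψ (cls N x) (fun n hn g hg => (cls_conj hn.1).2 hg)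
    rw [cong_iff π h1.1 h2.1, ← h1.2, ← h2.2, key x hx]
  constructor
  · intro h
    refine ZA_ext (nor_self N) (lam π χ) (fun z => lam π ψ (br P z)) hχB.map_add
      hχB.map_smul ?_ ?_ ?_
    · intro z hz w hw
      show lam π ψ (br P (z + w)) = _
      rw [br_add, hψB.map_add _ (hbr z hz) _ (hbr w hw)]
    · intro c z hz
      show lam π ψ (br P (c • z)) = _
      rw [br_smul, hψB.map_smul _ _ (hbr z hz)]
    · intro x hx
      exact (key2 x hx).1 (h x hx)
  · intro h x hx
    exact (key2 x hx).2 (h _ (csum_cls_mem_self hx))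

end Pool.Agent.H65.EA
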